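import Pool.Agent.Run7.h787.ST.Iface

/-!
# ST/FINV, ST/UNR (helper889)
-/

set_option autoImplicit false

open NumberField IsDedekindDomain

namespace Run7.h889.ST

open Pool.Agent.Run7.h787.ST

/-- Fourier inversion -/
theorem inv_aux (G : Type) [CommGroup G] [Fintype G] (f : G → ℂ)
    (h : ∀ χ : G →* ℂˣ, ∑ g, (χ g : ℂ) * f g = 0) (g0 : G) : f g0 = 0 := by
  classical
  have hψ : ∀ ψ : AddChar (Additive G) ℂ, ∑ g : G, ψ (Additive.ofMul g) * f g = 0 := by
    intro ψ
    let χ0 : G →* ℂ :=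
      { toFun := fun g => ψ (Additive.ofMul g)
        map_one' := ψ.map_zero_eq_one
        map_mul' := fun a b => ψ.map_add_eq_mul _ _ }
    exact h χ0.toHomUnits
  have h1 : ∑ ψ : AddChar (Additive G) ℂ, ψ (-Additive.ofMul g0) *
      ∑ g : G, ψ (Additive.ofMul g) * f g = 0 :=
    Finset.sum_eq_zero fun ψ _ => by rw [hψ ψ, mul_zero]
  have h2 : ∑ ψ : AddChar (Additive G) ℂ, ψ (-Additive.ofMul g0) *
      ∑ g : G, ψ (Additive.ofMul g) * f g =
      ∑ g : G, (∑ ψ : AddChar (Additive G) ℂ, ψ (Additive.ofMul g - Additive.ofMul g0)) * f g := by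
    simp only [Finset.mul_sum, Finset.sum_mul]
    rw [Finset.sum_comm]
    refine Finset.sum_congr rfl fun g _ => Finset.sum_congr rfl fun ψ _ => ?_
    rw [sub_eq_neg_add, ψ.map_add_eq_mul]
    ring
  rw [h2] at h1
  have h3 : ∀ g : G, (∑ ψ : AddChar (Additive G) ℂ, ψ (Additive.ofMul g - Additive.ofMul g0)) * f g
      = if g = g0 then (Fintype.card (Additive G) : ℂ) * f g0 else 0 := by
    intro g
    rw [AddChar.sum_apply_eq_ite]
    by_cases hg : g = g0
    · subst hg
      simp
    · have : Additive.ofMul g - Additive.ofMul g0 ≠ 0 := by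
        rw [Ne, sub_eq_zero]
        exact fun h => hg (Additive.ofMul.injective h)
      simp [hg, this]
  simp only [h3, Finset.sum_ite_eq', Finset.mem_univ, if_true] at h1
  rcases mul_eq_zero.1 h1 with h4 | h4
  · exfalso
    have : (Fintype.card (Additive G) : ℂ) ≠ 0 := by
      exact_mod_cast Fintype.card_ne_zero
    exact this h4
  · exact h4

open scoped IsMulCommutative in
theorem t_FINV : S_FINV := by
  intro K _ _ _ H hH f hf g
  have := hH.1
  have := hH.2
  let _ : Fintype (Gal H) := Fintype.ofFinite _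
  have h1 : ∀ χ : Gal H →* ℂˣ, ∑ g, (χ g : ℂ) * ((f g : ℝ) : ℂ) = 0 := by
    intro χ
    rw [← finsum_eq_sum_of_fintype]
    exact hf χ
  have h2 := inv_aux (Gal H) (fun g => ((f g : ℝ) : ℂ)) h1 g
  exact_mod_cast h2

lemma neg_mem {P : Set ℝ} (hP : IsRealPrime P) {x : ℝ} (hx : x ∈ P) : -x ∈ P := by
  have h := hP.2.2.2.1 (-1) x (isIntegral_one.neg) hx
  simpa using h

lemma mem_ext_left {K : Type} [Field K] [NumberField K] [Algebra K ℝ]
    (H : IntermediateField K ℝ) (a : ℝ) {x : ℝ} (hx : x ∈ H) : x ∈ ext H a :=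
  (le_sup_left : H ≤ ext H a) hx

lemma mem_ext_self {K : Type} [Field K] [NumberField K] [Algebra K ℝ]
    (H : IntermediateField K ℝ) (a : ℝ) : a ∈ ext H a :=
  (le_sup_right : IntermediateField.adjoin K {a} ≤ ext H a)
    (IntermediateField.mem_adjoin_simple_self K a)

/-- an automorphism of `H(a)` which fixes `H` and `a` is trivial -/
lemma eq_one_of_fix {K : Type} [Field K] [NumberField K] [Algebra K ℝ]
    (H : IntermediateField K ℝ) (a : ℝ) (g : Gal (ext H a))
    (h1 : ∀ y : ext H a, (y : ℝ) ∈ H → g y = y)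
    (h2 : g ⟨a, mem_ext_self H a⟩ = ⟨a, mem_ext_self H a⟩) : g = 1 := by
  let F : IntermediateField K (ext H a) :=
    IntermediateField.fixedField (Subgroup.zpowers g)
  have hF : ∀ y : ext H a, y ∈ F ↔ g y = y := by
    intro y
    rw [IntermediateField.mem_fixedField_iff]
    constructor
    · intro h
      exact h g (Subgroup.mem_zpowers g)
    · intro h f hf
      obtain ⟨n, rfl⟩ := Subgroup.mem_zpowers_iff.1 hf
      have hst : g ∈ MulAction.stabilizer (Gal (ext H a)) y := h
      exact (MulAction.stabilizer (Gal (ext H a)) y).zpow_mem hst n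
  have hle : ext H a ≤ IntermediateField.lift F := by
    refine sup_le ?_ ?_
    · intro x hx
      have := (hF ⟨x, mem_ext_left H a hx⟩).2 (h1 _ hx)
      exact (IntermediateField.mem_lift (F := ext H a) (E := F) ⟨x, mem_ext_left H a hx⟩).2 this
    · rw [IntermediateField.adjoin_simple_le_iff]
      have := (hF ⟨a, mem_ext_self H a⟩).2 h2
      exact (IntermediateField.mem_lift (F := ext H a) (E := F) ⟨a, mem_ext_self H a⟩).2 this
  ext y
  have h3 := (IntermediateField.mem_lift (F := ext H a) (E := F) y).1 (hle y.2)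
  rw [(hF y).1 h3]
  rfl

theorem t_UNR (hRES : S_RES) : S_UNR := by
  intro K _ _ _ H a α p hH hE ha hev h2 hun P hP g hg
  obtain ⟨r, hr, -⟩ := hRES K H (ext H a) (fun x hx => mem_ext_left H a hx) hH hE
  have hr1 : r g = 1 := by
    refine hun P hP (r g) fun x hx => ?_
    have e := hr g x ⟨x, mem_ext_left H a x.2⟩ rfl
    rw [e]
    exact hg ⟨x, mem_ext_left H a x.2⟩ hx
  have hfix : ∀ y : ext H a, (y : ℝ) ∈ H → g y = y := by
    intro y hy
    have e := hr g ⟨y, hy⟩ y rfl
    rw [hr1] at e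
    exact (Subtype.ext e).symm
  set a' : ext H a := ⟨a, mem_ext_self H a⟩ with ha'
  have hsq : a' ^ 2 = algebraMap K (ext H a) (α : K) := by
    apply Subtype.ext
    push_cast
    exact ha
  have hgsq : (g a') ^ 2 = a' ^ 2 := by
    rw [← map_pow, hsq, AlgEquiv.commutes]
  rcases sq_eq_sq_iff_eq_or_eq_neg.1 hgsq with h | h
  · exact eq_one_of_fix H a g hfix h
  · exfalso
    obtain ⟨a0, t, c, ha0, ht, hc, e⟩ := hev
    have hcK : (algebraMap K ℝ (c : K)) ≠ 0 := by
      rw [Ne, map_eq_zero]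
      exact_mod_cast hc
    set β : ext H a := a' * algebraMap K (ext H a) ((t : K) / (c : K)) with hβ
    have hβv : (β : ℝ) = a * (algebraMap K ℝ (t : K) / algebraMap K ℝ (c : K)) := by
      rw [hβ]
      push_cast
      rw [← map_div₀]
    have hβ2 : (β : ℝ) ^ 2 = algebraMap K ℝ (a0 : K) := by
      have e' : (algebraMap K ℝ (α : K)) * (algebraMap K ℝ (t : K)) ^ 2 =
          (algebraMap K ℝ (a0 : K)) * (algebraMap K ℝ (c : K)) ^ 2 := by
        rw [← map_pow, ← map_pow, ← map_mul, ← map_mul]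
        congr 1
        exact_mod_cast congrArg (fun z : 𝓞 K => (z : K)) e
      rw [hβv, mul_pow, div_pow, ha]
      field_simp
      linear_combination e'
    have hint : ∀ z : 𝓞 K, IsIntegral ℤ (algebraMap K ℝ (z : K)) := fun z =>
      (z.isIntegral_coe).map (algebraMap K ℝ).toIntAlgHom
    have hβi : IsIntegral ℤ (β : ℝ) := by
      have h1 : IsIntegral ℤ ((β : ℝ) ^ 2) := by
        rw [hβ2]
        exact hint a0
      exact IsIntegral.of_pow (by norm_num) h1
    have hgβ : g β = -β := by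
      rw [hβ, map_mul, AlgEquiv.commutes, h, neg_mul]
    have h3 := hg β hβi
    rw [hgβ] at h3
    have h4 : (-2 : ℝ) * (β : ℝ) ∈ P := by
      have e : (-2 : ℝ) * (β : ℝ) = ((-β : ext H a) : ℝ) - (β : ℝ) := by
        push_cast
        ring
      rw [e]
      exact h3
    have hint2 : IsIntegral ℤ (-2 : ℝ) := by
      have : (-2 : ℝ) = ((-2 : ℤ) : ℝ) := by norm_num
      rw [this]
      exact isIntegral_algebraMap
    obtain ⟨hPr, hov⟩ := hP
    rcases hPr.2.2.2.2.2 _ _ hint2 hβi h4 with h5 | h5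
    · have h6 := neg_mem hPr h5
      rw [neg_neg] at h6
      apply h2
      rw [← hov]
      have : algebraMap K ℝ (((2 : 𝓞 K)) : K) = 2 := by
        have : (((2 : 𝓞 K)) : K) = 2 := rfl
        rw [this, map_ofNat]
      rw [this]
      exact h6
    · apply ha0
      rw [← hov, ← hβ2, sq]
      exact hPr.2.2.2.1 _ _ hβi h5

end Run7.h889.ST
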